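import Pool.Agent.MP_856573_co.H90.Main

/-! The constant for 1-bend free sets of planar graphs is at most `8 / 9`. -/

namespace Pool.Agent.Results.MP_856573_co.EightNinths

open Filter Topology
open Pool.Agent.MP_856573_co.H90

theorem result (β : ℝ) (g : ℕ → ℝ) (hg : Tendsto (fun n : ℕ => g n / n) atTop (𝓝 0))
    (h : ∀ (n : ℕ) (G : SimpleGraph (Fin n)), IsPlanar G → β * n - g n ≤ m G) : β ≤ 8 / 9 := by
  have hk : Tendsto (fun k : ℕ => k * 9) atTop atTop := tendsto_id.atTop_mul_const' (by norm_num)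
  have h1 : Tendsto (fun k : ℕ => 8 / 9 + (2 / 9) * (1 / (k : ℝ)) + g (k * 9) / ((k * 9 : ℕ) : ℝ))
      atTop (𝓝 (8 / 9 + (2 / 9) * 0 + 0)) :=
    (tendsto_const_nhds.add (tendsto_one_div_atTop_nhds_zero_nat.const_mul _)).add (hg.comp hk)
  rw [mul_zero, add_zero, add_zero] at h1
  refine ge_of_tendsto h1 ?_
  filter_upwards [eventually_gt_atTop 0] with k hk0
  have a := h (k * 9) _ (planar_comap (k := k) finProdFinEquiv.symm finProdFinEquiv.symm.injective)
  have b : (m ((GG k).comap finProdFinEquiv.symm) : ℝ) ≤ 8 * k + 2 := by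
    exact_mod_cast m_le (k := k) finProdFinEquiv.symm
  have k0 : (0 : ℝ) < k := by exact_mod_cast hk0
  push_cast at a ⊢
  have c : β * (k * 9) ≤ 8 * k + 2 + g (k * 9) := by linarith
  have d : 8 / 9 + 2 / 9 * (1 / (k : ℝ)) + g (k * 9) / (k * 9) =
      (8 * k + 2 + g (k * 9)) / (k * 9) := by field_simp
  rw [d, le_div_iff₀ (by positivity)]
  exact c

end Pool.Agent.Results.MP_856573_co.EightNinths
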