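import Pool.Agent.MP_31805c_co.H47.FourCol
import Pool.Agent.MP_856573_co.H74.All

/-! Every planar graph on `n ≥ 4` vertices has a 1-bend free set with at least `11 n / 16`
vertices. -/

namespace Pool.Agent.Results.MP_856573_co.ElevenSixteenths

open Pool.Agent.MP_856573_co.H90

theorem result (n : ℕ) (G : SimpleGraph (Fin n)) (hn : 4 ≤ n) (hG : IsPlanar G) :
    11 * n ≤ 16 * m G := by
  simpa using MP_856573_co.H74.lower MP_31805c_co.H47.fourCol G hG (by simpa using hn)

end Pool.Agent.Results.MP_856573_co.ElevenSixteenths
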